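import Pool.Agent.H878Z.C33Main

namespace Pool.Agent.Results.MP_5edfab_co.Asymptotic

open Filter Topology

/-- The largest size `F n` of a `C_3[3]`-set in `{1, ..., n}` satisfies `F n / n ^ (2/3) → 1`. -/
theorem result :
    Tendsto (fun n : ℕ => (Pool.Agent.H878Z.C33.F n : ℝ) / (n : ℝ) ^ (2 / 3 : ℝ)) atTop (𝓝 1) :=
  Pool.Agent.H878Z.C33.main

end Pool.Agent.Results.MP_5edfab_co.Asymptotic
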